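import Mathlib
import Pool.Agent.R125.ZekA

/-!
# MP_b74c76: the maximum order complexity of the Zeckendorf parity sequence has no asymptotic slope
-/

namespace Pool.Agent.Results.MP_b74c76_co.NoLimit

open Filter

/-- `s_Z(n)`: number of summands in the Zeckendorf representation of `n`. -/
def sZ (n : ℕ) : ℕ := n.zeckendorf.length

/-- the binary sequence `s_Z(n) mod 2` -/
def SZ (n : ℕ) : ZMod 2 := (sZ n : ZMod 2)

/-- `s_0,…,s_{N-1}` is generated by a feedback shift register of length `k` -/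
def IsReg (s : ℕ → ZMod 2) (N k : ℕ) : Prop :=
  ∃ f : (Fin k → ZMod 2) → ZMod 2, ∀ i, i + k + 1 ≤ N → s (i + k) = f (fun j => s (i + j))

/-- the `N`th maximum order complexity -/
noncomputable def maxOrder (s : ℕ → ZMod 2) (N : ℕ) : ℕ := sInf {k | IsReg s N k}

open R125Z

lemma SZ_eq_iff (m n : ℕ) : SZ m = SZ n ↔ par m = par n := by
  unfold SZ sZ par
  rw [ZMod.natCast_eq_natCast_iff, Nat.ModEq]
  rcases Nat.mod_two_eq_zero_or_one m.zeckendorf.length with h1 | h1 <;>
    rcases Nat.mod_two_eq_zero_or_one n.zeckendorf.length with h2 | h2 <;> simp [h1, h2]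

lemma isReg_self (s : ℕ → ZMod 2) (N : ℕ) : IsReg s N N :=
  ⟨fun _ => 0, fun i hi => by omega⟩

lemma maxOrder_le {s : ℕ → ZMod 2} {N k : ℕ} (h : IsReg s N k) : maxOrder s N ≤ k :=
  Nat.sInf_le h

lemma le_maxOrder {s : ℕ → ZMod 2} {N u v t : ℕ} (hv : v + t + 1 ≤ N) (huv : u < v)
    (h : ∀ i < t, s (u + i) = s (v + i)) (hne : s (u + t) ≠ s (v + t)) :
    t + 1 ≤ maxOrder s N := by
  have hmem : maxOrder s N ∈ {k | IsReg s N k} := Nat.sInf_mem ⟨N, isReg_self s N⟩
  obtain ⟨f, hf⟩ := hmem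
  by_contra hlt
  push Not at hlt
  obtain ⟨r, hr⟩ : ∃ r, t = r + maxOrder s N := ⟨t - maxOrder s N, by omega⟩
  apply hne
  have h1 := hf (u + r) (by omega)
  have h2 := hf (v + r) (by omega)
  have e1 : u + t = u + r + maxOrder s N := by omega
  have e2 : v + t = v + r + maxOrder s N := by omega
  rw [e1, e2, h1, h2]
  congr 1
  funext j
  rw [add_assoc, add_assoc]
  exact h (r + j) (by have := j.2; omega)

/-- the first 180 terms, as a bit mask -/
def mask : ℕ := 971942153103740814020628129009384242826726414063644974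

lemma mask_check : ∀ n < 180, cp 12 n = mask.testBit n := by
  decide +kernel

lemma win_check : ∀ v < 143, ∀ u < v, (mask >>> u) % 2 ^ 35 ≠ (mask >>> v) % 2 ^ 35 := by
  decide +kernel

lemma base {u v : ℕ} (huv : u < v) (hv : v < 143) : ∃ i < 35, par (u + i) ≠ par (v + i) := by
  by_contra hcon
  push Not at hcon
  apply win_check v hv u huv
  have f : Nat.fib 14 = 377 := by decide +kernel
  apply Nat.eq_of_testBit_eq
  intro i
  rw [Nat.testBit_mod_two_pow, Nat.testBit_mod_two_pow, Nat.testBit_shiftRight,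
    Nat.testBit_shiftRight]
  by_cases hi : i < 35
  · rw [← mask_check (u + i) (by omega), ← mask_check (v + i) (by omega),
      ← cp_eq 12 (u + i) (by rw [f]; omega), ← cp_eq 12 (v + i) (by rw [f]; omega), hcon i hi]
  · simp [hi]

/-- no long repetition starting in a short prefix -/
lemma norep (j : ℕ) : ∀ u v t : ℕ, u < v → (v : ℝ) ≤ 137.75 * Real.goldenRatio ^ j + 4.25 →
    44.1 * Real.goldenRatio ^ j - 9.1 ≤ (t : ℝ) → ∃ i < t, par (u + i) ≠ par (v + i) := by
  obtain ⟨hp1, hp2⟩ := phi_bounds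
  have hp0 : (0 : ℝ) < Real.goldenRatio := by linarith
  induction j with
  | zero =>
    intro u v t huv hv ht
    have hv' : v < 143 := by
      have : (v : ℝ) < 143 := by rw [pow_zero] at hv; linarith
      exact_mod_cast this
    have ht' : 35 ≤ t := by
      have : (34 : ℝ) < (t : ℝ) := by rw [pow_zero] at ht; linarith
      have : 34 < t := by exact_mod_cast this
      omega
    obtain ⟨i, hi, hne⟩ := base huv hv'
    exact ⟨i, by omega, hne⟩
  | succ j ih =>
    intro u v t huv hv ht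
    by_contra hcon
    push Not at hcon
    have hpj : (1 : ℝ) ≤ Real.goldenRatio ^ j := one_le_pow₀ (by linarith)
    have ht4 : 4 ≤ t := by
      have h1 : (3 : ℝ) < t := by
        rw [pow_succ] at ht
        nlinarith
      have : 3 < t := by exact_mod_cast h1
      omega
    obtain ⟨u', v', t', huv', hv', ht', heq⟩ := desub huv ht4 hcon
    rw [le_div_iff₀ hp0] at hv'
    rw [div_le_iff₀ hp0] at ht'
    obtain ⟨i, hi, hne⟩ := ih u' v' t' huv' (by
      by_contra hc
      push Not at hc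
      rw [pow_succ] at hv
      nlinarith) (by
      by_contra hc
      push Not at hc
      rw [pow_succ] at ht
      nlinarith)
    exact hne (heq i hi)

/-- upper bound along a sequence -/
lemma upper (j : ℕ) : ∃ N : ℕ, j ≤ N ∧ (maxOrder SZ N : ℝ) ≤ N / 4 := by
  obtain ⟨hp1, hp2⟩ := phi_bounds
  have hp0 : (0 : ℝ) < Real.goldenRatio := by linarith
  have hpj : (1 : ℝ) ≤ Real.goldenRatio ^ j := one_le_pow₀ (by linarith)
  set P := Real.goldenRatio ^ j with hP
  obtain ⟨T, hT⟩ : ∃ T, T = ⌈44.1 * P⌉₊ := ⟨_, rfl⟩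
  obtain ⟨V, hV⟩ : ∃ V, V = ⌊137.75 * P⌋₊ := ⟨_, rfl⟩
  have hT1 : 44.1 * P ≤ T := by rw [hT]; exact Nat.le_ceil _
  have hT2 : (T : ℝ) < 44.1 * P + 1 := by rw [hT]; exact Nat.ceil_lt_add_one (by positivity)
  have hV1 : (V : ℝ) ≤ 137.75 * P := by rw [hV]; exact Nat.floor_le (by positivity)
  have hV2 : 137.75 * P < V + 1 := by rw [hV]; exact Nat.lt_floor_add_one _
  refine ⟨V + T, ?_, ?_⟩
  · have h1 : (1 : ℝ) + j * (Real.goldenRatio - 1) ≤ P := by
      rw [hP]
      have := one_add_mul_le_pow (a := Real.goldenRatio - 1) (by linarith) j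
      simpa using this
    have h2 : (j : ℝ) ≤ ((V + T : ℕ) : ℝ) := by
      push_cast
      have hj0 : (0 : ℝ) ≤ j := Nat.cast_nonneg j
      nlinarith
    exact_mod_cast h2
  · have hreg : IsReg SZ (V + T) T := by
      classical
      refine ⟨fun w => if h : ∃ i, i + T + 1 ≤ V + T ∧ w = fun j : Fin T => SZ (i + (j : ℕ)) then
        SZ (h.choose + T) else 0, ?_⟩
      intro i hi
      have hex : ∃ i', i' + T + 1 ≤ V + T ∧ (fun j : Fin T => SZ (i + (j : ℕ))) = fun j : Fin T => SZ (i' + (j : ℕ)) :=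
        ⟨i, hi, rfl⟩
      beta_reduce
      rw [dif_pos hex]
      have hspec := hex.choose_spec
      have key : ∀ a b : ℕ, a < b → b + T + 1 ≤ V + T →
          ¬ ((fun j : Fin T => SZ (a + (j : ℕ))) = fun j : Fin T => SZ (b + (j : ℕ))) := by
        intro a b hab hb heq
        obtain ⟨r, hr, hne⟩ := norep j a b T hab (by
          have : (b : ℝ) ≤ V := by
            have : b ≤ V := by omega
            exact_mod_cast this
          linarith) (by linarith)
        exact hne ((SZ_eq_iff _ _).1 (congrFun heq ⟨r, hr⟩))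
      have : i = hex.choose := by
        rcases lt_trichotomy i hex.choose with h | h | h
        · exact absurd hspec.2 (key _ _ h hspec.1)
        · exact h
        · exact absurd hspec.2.symm (key _ _ h hi)
      rw [← this]
    have h1 : (maxOrder SZ (V + T) : ℝ) ≤ T := by exact_mod_cast maxOrder_le hreg
    push_cast
    linarith

/-- lower bound along the sequence `F_{j+2} + F_j + 1` -/
lemma lower (j : ℕ) (hj : 3 ≤ j) :
    Nat.fib j + 1 ≤ maxOrder SZ (Nat.fib (j + 2) + Nat.fib j + 1) := by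
  have hf : Nat.fib (j + 2) = Nat.fib j + Nat.fib (j + 1) := Nat.fib_add_two
  have hpos : 0 < Nat.fib j := Nat.fib_pos.2 (by omega)
  have hpos1 : 0 < Nat.fib (j - 1) := Nat.fib_pos.2 (by omega)
  have hlt : Nat.fib j < Nat.fib (j + 1) := by
    obtain ⟨k, rfl⟩ : ∃ k, j = k + 1 := ⟨j - 1, by omega⟩
    have : Nat.fib (k + 2) = Nat.fib k + Nat.fib (k + 1) := Nat.fib_add_two
    have : 0 < Nat.fib k := Nat.fib_pos.2 (by omega)
    show Nat.fib (k + 1) < Nat.fib (k + 2)
    omega
  apply le_maxOrder (u := Nat.fib (j + 1)) (v := Nat.fib (j + 2)) le_rfl (by omega)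
  · intro i hi
    rw [SZ_eq_iff, par_add (by omega) (by simpa using hi),
      par_add (by omega) (by simpa using hi.trans hlt)]
  · rw [Ne, SZ_eq_iff]
    have e1 : Nat.fib (j + 1) + Nat.fib j = Nat.fib (j + 2) + 0 := by omega
    rw [e1, par_add (by omega) (by simp), par_add (by omega) (by simpa using hlt)]
    have e2 : Nat.fib j = Nat.fib j + 0 := rfl
    rw [e2, par_add (by omega) (by simpa using hpos1)]
    cases par 0 <;> simp

lemma fib_two_add (j : ℕ) : (Nat.fib (j + 2) : ℝ) ≤ Real.goldenRatio ^ 2 * Nat.fib j + 1 := by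
  have h1 := Real.fib_succ_sub_goldenRatio_mul_fib j
  have h2 := Real.fib_succ_sub_goldenRatio_mul_fib (j + 1)
  have h3 : |Real.goldenConj ^ (j + 1) + Real.goldenRatio * Real.goldenConj ^ j| ≤ 1 := by
    have e : Real.goldenConj ^ (j + 1) + Real.goldenRatio * Real.goldenConj ^ j
        = Real.goldenConj ^ j := by
      have := Real.goldenRatio_add_goldenConj
      rw [pow_succ]
      calc _ = Real.goldenConj ^ j * (Real.goldenRatio + Real.goldenConj) := by ring
        _ = _ := by rw [this, mul_one]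
    rw [e, abs_pow, abs_psi]
    have := phi_bounds
    exact pow_le_one₀ (by linarith) (by linarith)
  have h4 := (abs_le.1 h3).2
  have h5 : (Nat.fib (j + 2) : ℝ) = Real.goldenRatio ^ 2 * Nat.fib j
      + (Real.goldenConj ^ (j + 1) + Real.goldenRatio * Real.goldenConj ^ j) := by
    rw [← h1, ← h2]
    ring
  rw [h5]
  linarith

lemma lower_freq (ε : ℝ) (hε : 0 < ε) : ∃ᶠ N : ℕ in atTop,
    (1 / (1 + Real.goldenRatio ^ 2) - ε) * N ≤ maxOrder SZ N := by
  rw [Filter.frequently_atTop]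
  intro a
  obtain ⟨b, hb⟩ := exists_nat_gt (1 / ε)
  -- choose j large
  obtain ⟨j, hj⟩ : ∃ j, j = a + b + 5 := ⟨_, rfl⟩
  have hle : j ≤ Nat.fib (j + 2) + Nat.fib j + 1 := by
    have := Nat.le_fib_add_one (j + 2)
    omega
  refine ⟨Nat.fib (j + 2) + Nat.fib j + 1, by omega, ?_⟩
  have h1 := lower j (by omega)
  have h2 : ((Nat.fib j : ℝ) + 1) ≤ maxOrder SZ (Nat.fib (j + 2) + Nat.fib j + 1) := by
    exact_mod_cast h1
  refine le_trans ?_ h2
  have h3 := fib_two_add j
  set F : ℝ := (Nat.fib j : ℝ) with hF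
  set N : ℝ := ((Nat.fib (j + 2) + Nat.fib j + 1 : ℕ) : ℝ) with hN
  have hN2 : N ≤ (1 + Real.goldenRatio ^ 2) * F + 2 := by
    rw [hN]; push_cast; linarith
  have hN3 : (j : ℝ) ≤ N := by rw [hN]; exact_mod_cast hle
  have hp : (0 : ℝ) < 1 + Real.goldenRatio ^ 2 := by positivity
  have h4 : 1 / (1 + Real.goldenRatio ^ 2) * N ≤ F + 2 / (1 + Real.goldenRatio ^ 2) := by
    rw [div_mul_eq_mul_div, one_mul, div_le_iff₀ hp]
    have : (F + 2 / (1 + Real.goldenRatio ^ 2)) * (1 + Real.goldenRatio ^ 2)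
        = (1 + Real.goldenRatio ^ 2) * F + 2 := by field_simp
    linarith
  have h5 : 2 / (1 + Real.goldenRatio ^ 2) ≤ 1 := by
    rw [div_le_one hp]
    have := phi_bounds
    nlinarith
  have h6 : 0 ≤ ε * N := by
    have : (0 : ℝ) ≤ j := Nat.cast_nonneg j
    exact mul_nonneg hε.le (this.trans hN3)
  rw [sub_mul]
  linarith

lemma upper_freq : ∃ᶠ N : ℕ in atTop, (maxOrder SZ N : ℝ) ≤ N / 4 := by
  rw [Filter.frequently_atTop]
  intro a
  obtain ⟨N, h1, h2⟩ := upper a
  exact ⟨N, h1, h2⟩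

/-- **MP_b74c76.**  `M(S_Z,N)/N` has no limit: it is frequently at least `1/(1+φ²) - ε` (for every
`ε > 0`; note `1/(1+φ²) = 0.276…`) and frequently at most `1/4`. -/
theorem result :
    (∀ ε : ℝ, 0 < ε → ∃ᶠ N : ℕ in atTop,
      (1 / (1 + Real.goldenRatio ^ 2) - ε) * N ≤ maxOrder SZ N) ∧
    (∃ᶠ N : ℕ in atTop, (maxOrder SZ N : ℝ) ≤ N / 4) ∧
    (¬ ∃ L : ℝ, Tendsto (fun N : ℕ => (maxOrder SZ N : ℝ) / N) atTop (nhds L)) ∧
    ¬ Tendsto (fun N : ℕ => (maxOrder SZ N : ℝ) / N) atTop
      (nhds (1 / (1 + Real.goldenRatio ^ 2))) := by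
  have main : ¬ ∃ L : ℝ, Tendsto (fun N : ℕ => (maxOrder SZ N : ℝ) / N) atTop (nhds L) := by
    rintro ⟨L, hL⟩
    obtain ⟨hp1, hp2⟩ := phi_bounds
    have hq : (0.2763 : ℝ) < 1 / (1 + Real.goldenRatio ^ 2) := by
      rw [lt_div_iff₀ (by positivity)]
      nlinarith
    have hpos : ∀ᶠ N : ℕ in atTop, (0 : ℝ) < N := by
      filter_upwards [eventually_gt_atTop 0] with N hN
      exact_mod_cast hN
    have h1 : L ≤ 1 / 4 := by
      by_contra hc
      push Not at hc
      have hev := hL.eventually (lt_mem_nhds hc)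
      obtain ⟨N, ha, hb, hc⟩ := (upper_freq.and_eventually (hev.and hpos)).exists
      rw [lt_div_iff₀ hc] at hb
      linarith
    have h2 : 0.27 ≤ L := by
      by_contra hc
      push Not at hc
      have hev := hL.eventually (gt_mem_nhds hc)
      obtain ⟨N, ha, hb, hc⟩ := ((lower_freq 0.005 (by norm_num)).and_eventually
        (hev.and hpos)).exists
      rw [div_lt_iff₀ hc] at hb
      nlinarith
    norm_num at h1 h2
    linarith
  exact ⟨lower_freq, upper_freq, main, fun h => main ⟨_, h⟩⟩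

end Pool.Agent.Results.MP_b74c76_co.NoLimit
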